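import Pool.Agent.Helper49.SH.Df
import Pool.Agent.Helper24.LU.Ts

/-!
PROJECT ALLQ (MP_274814_nt), family side: the scale relation of the Fermat types, `K_base_scale`.
-/

set_option autoImplicit false

namespace Pool.Agent.Helper4.SH

open Finset Complex Pool.Agent.Helper34.LT LTG Pool.Agent.Helper34.LU Pool.Agent.Helper49.SH
open Pool.Agent.Helper44.LT (PU)
open Pool.Agent.Helper24.LU (KR)

theorem K_base_scale (q a b : ℕ) (h3 : 3 ≤ q) (_ha : ¬ q ∣ a) (_hb : ¬ q ∣ b)
    (_hab : Nat.Coprime (a + b) q) :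
    ∀ u ∈ PU q a b, IsAlgebraic (KR q) (rhU q a b u ^ 2 / Real.pi) :=
  fun _ hu => Pool.Agent.Helper24.LU.rhU_sq_alg (by omega) hu

end Pool.Agent.Helper4.SH
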